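import Mathlib

/-!
# Odd primes and the period bound for additive automata at prime powers

For an odd prime `p` and all `σ ≥ 1`, `m ≥ 2` we show `π_σ(p^m) = p π_σ(p^(m-1))`. Since the period modulo `p^(m+1)` is
either equal to the period modulo `p^m` or `p` times it, and since for odd `p` a jump from `p^m` to `p^(m+1)` forces the
next jump, it suffices to find a rule `a + b x` whose period modulo `p` is maximal and whose period modulo `p^2` is
different.

* If `p ∤ σ`, then the maximal period `k` modulo `p` is prime to `p`, and `(a + b x)^k = 1` cannot persist modulo `p^2`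
  for both lifts `a` and `a + p`.
* If `p ∣ σ` and `a b` is not divisible by `p`, two differentiations of the congruence
  `(a + b z)^(n + p k') ≡ (a + b z)^n` modulo `(p^2, z^M - 1)`, where `z` is a suitable power of `x`, show that `k` is
  not a period modulo `p^2`.
* If `p ∣ σ` and `a = 0` or `b = 0`, then the period divides `lcm(σ, p - 1)`. If `2 c` is a primitive root modulo `p`,
  then the period of `c (1 + x)` is a multiple of this number, because `x ↦ 1/x` maps `1 + x` to `x⁻¹ (1 + x)`.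
-/

set_option autoImplicit false

namespace Pool.Agent.Results.MP_25c86d_nt.OddPrimes

open Polynomial

/-- The element `a + b x` of the ring `(ℤ/n)[x]/(x^σ - 1)`. -/
noncomputable def rule (σ n : ℕ) (a b : ZMod n) : AdjoinRoot (X ^ σ - 1 : (ZMod n)[X]) :=
  AdjoinRoot.mk _ (C a + C b * X)

/-- The period `Π_σ(a,b;n)`: the least `k ≥ 1` such that `(a + b x)^(k + l) = (a + b x)^l` for some `l ≥ 0`. -/
noncomputable def period (σ n : ℕ) (a b : ZMod n) : ℕ :=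
  sInf {k : ℕ | 1 ≤ k ∧ ∃ l : ℕ, rule σ n a b ^ (k + l) = rule σ n a b ^ l}

/-- The maximal period `π_σ(n)`. -/
noncomputable def maxPeriod (σ n : ℕ) : ℕ :=
  ⨆ ab : ZMod n × ZMod n, period σ n ab.1 ab.2

/-! ### Periods in finite monoids -/

section monoid

variable {M : Type*} [Monoid M]

lemma exists_per [Finite M] (y : M) : ∃ k : ℕ, 1 ≤ k ∧ ∃ l : ℕ, y ^ (k + l) = y ^ l := by
  obtain ⟨i, j, hne, hij⟩ := Finite.exists_ne_map_eq_of_infinite (fun n : ℕ => y ^ n)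
  rcases lt_or_gt_of_ne hne with h | h
  · exact ⟨j - i, by omega, i, by rw [Nat.sub_add_cancel h.le]; exact hij.symm⟩
  · exact ⟨i - j, by omega, j, by rw [Nat.sub_add_cancel h.le]; exact hij⟩

lemma pow_stable {y : M} {k l : ℕ} (h : y ^ (k + l) = y ^ l) {L : ℕ} (hL : l ≤ L) :
    y ^ (k + L) = y ^ L := by
  obtain ⟨d, rfl⟩ := Nat.exists_eq_add_of_le hL
  rw [← add_assoc, pow_add, h, ← pow_add]

lemma pow_mul_stable {y : M} {k l : ℕ} (h : y ^ (k + l) = y ^ l) (q : ℕ) :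
    y ^ (k * q + l) = y ^ l := by
  induction q with
  | zero => simp
  | succ q ih =>
    rw [Nat.mul_succ, add_assoc, add_comm k l, ← add_assoc, pow_add, ih, ← pow_add, add_comm l k, h]

/-- The set of all `k` with `y^(k+l) = y^l` for some `l` consists of the multiples of the period. -/
lemma per_dvd_iff [Finite M] (y : M) (k : ℕ) :
    (∃ l : ℕ, y ^ (k + l) = y ^ l) ↔ sInf {k : ℕ | 1 ≤ k ∧ ∃ l : ℕ, y ^ (k + l) = y ^ l} ∣ k := by
  have hne : {k : ℕ | 1 ≤ k ∧ ∃ l : ℕ, y ^ (k + l) = y ^ l}.Nonempty := exists_per y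
  obtain ⟨P, hP⟩ : ∃ P, P = sInf {k : ℕ | 1 ≤ k ∧ ∃ l : ℕ, y ^ (k + l) = y ^ l} := ⟨_, rfl⟩
  have hmem := Nat.sInf_mem hne
  rw [← hP] at hmem ⊢
  obtain ⟨hP1, l0, hl0⟩ := hmem
  constructor
  · rintro ⟨l, hl⟩
    by_contra hnd
    have hr : 0 < k % P := Nat.pos_of_ne_zero (fun h => hnd (Nat.dvd_of_mod_eq_zero h))
    have hlt : k % P < P := Nat.mod_lt _ hP1
    have hmem : k % P ∈ {k : ℕ | 1 ≤ k ∧ ∃ l : ℕ, y ^ (k + l) = y ^ l} := by
      refine ⟨hr, l + l0, ?_⟩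
      have h1 : y ^ (k + (l + l0)) = y ^ (l + l0) := pow_stable hl (by omega)
      have h2 : y ^ (P * (k / P) + (k % P + (l + l0))) = y ^ (k % P + (l + l0)) :=
        pow_stable (pow_mul_stable hl0 (k / P)) (by omega)
      rw [← h2, ← add_assoc, Nat.div_add_mod, h1]
    have := Nat.sInf_le hmem
    omega
  · rintro ⟨q, rfl⟩
    exact ⟨l0, pow_mul_stable hl0 q⟩

end monoid

/-! ### Polynomials -/

lemma monic_X_pow_sub_one {R : Type*} [CommRing R] {σ : ℕ} (hσ : 1 ≤ σ) :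
    (X ^ σ - 1 : R[X]).Monic := by
  have := monic_X_pow_sub_C (1 : R) (n := σ) (by omega)
  rwa [C_1] at this

lemma finite_ring {σ n : ℕ} (hσ : 1 ≤ σ) (hn : 1 ≤ n) :
    Finite (AdjoinRoot (X ^ σ - 1 : (ZMod n)[X])) := by
  have : NeZero n := ⟨by omega⟩
  have hm := monic_X_pow_sub_one (R := ZMod n) hσ
  have : Module.Finite (ZMod n) (AdjoinRoot (X ^ σ - 1 : (ZMod n)[X])) :=
    hm.finite_adjoinRoot
  exact Module.finite_of_finite (ZMod n)

/-- The integral version of the ring. -/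
abbrev A (σ : ℕ) : Type := AdjoinRoot (X ^ σ - 1 : ℤ[X])

/-- The element `a + b x` of the integral version of the ring. -/
noncomputable def al (σ : ℕ) (a b : ℤ) : A σ := AdjoinRoot.mk _ (C a + C b * X)

lemma map_eq_zero_iff_dvd {n : ℕ} (f : ℤ[X]) :
    f.map (Int.castRingHom (ZMod n)) = 0 ↔ C (n : ℤ) ∣ f := by
  rw [C_dvd_iff_dvd_coeff, Polynomial.ext_iff]
  simp only [coeff_map, coeff_zero, eq_intCast]
  exact forall_congr' fun i => ZMod.intCast_zmod_eq_zero_iff_dvd _ _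

lemma dvd_mk_iff {σ n : ℕ} (f : ℤ[X]) :
    ((n : A σ) ∣ AdjoinRoot.mk (X ^ σ - 1 : ℤ[X]) f) ↔
      (X ^ σ - 1 : (ZMod n)[X]) ∣ f.map (Int.castRingHom (ZMod n)) := by
  constructor
  · rintro ⟨y, hy⟩
    obtain ⟨g, rfl⟩ := AdjoinRoot.mk_surjective y
    have h1 : AdjoinRoot.mk (X ^ σ - 1 : ℤ[X]) (f - C (n : ℤ) * g) = 0 := by
      rw [map_sub, map_mul, hy]
      have : AdjoinRoot.mk (X ^ σ - 1 : ℤ[X]) (C (n : ℤ)) = (n : A σ) := by
        simp
      rw [this, sub_self]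
    rw [AdjoinRoot.mk_eq_zero] at h1
    obtain ⟨h, hh⟩ := h1
    refine ⟨h.map (Int.castRingHom (ZMod n)), ?_⟩
    have h2 := congrArg (Polynomial.map (Int.castRingHom (ZMod n))) hh
    simpa using h2
  · rintro ⟨g, hg⟩
    obtain ⟨G, rfl⟩ := Polynomial.map_surjective (Int.castRingHom (ZMod n))
      (ZMod.intCast_surjective) g
    have h1 : (f - (X ^ σ - 1) * G).map (Int.castRingHom (ZMod n)) = 0 := by
      simp [hg]
    rw [map_eq_zero_iff_dvd] at h1
    obtain ⟨H, hH⟩ := h1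
    refine ⟨AdjoinRoot.mk _ H, ?_⟩
    have h2 : f = (X ^ σ - 1) * G + C (n : ℤ) * H := by rw [← hH]; ring
    rw [h2, map_add, map_mul, AdjoinRoot.mk_self, zero_mul, zero_add, map_mul]
    simp

lemma torsionFree {σ : ℕ} (hσ : 1 ≤ σ) {n : ℕ} (hn : 1 ≤ n) {y : A σ} (h : (n : A σ) * y = 0) :
    y = 0 := by
  have hm := monic_X_pow_sub_one (R := ℤ) hσ
  obtain ⟨f, rfl⟩ := AdjoinRoot.mk_surjective y
  have h1 : AdjoinRoot.mk (X ^ σ - 1 : ℤ[X]) ((n : ℤ) • f) = 0 := by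
    rw [← h, zsmul_eq_mul, map_mul, map_intCast]
    simp
  rw [AdjoinRoot.mk_eq_zero] at h1 ⊢
  rw [← modByMonic_eq_zero_iff_dvd hm] at h1 ⊢
  rw [smul_modByMonic] at h1
  exact (smul_eq_zero.1 h1).resolve_left (by positivity)

lemma cancel {σ : ℕ} (hσ : 1 ≤ σ) {p : ℕ} (hp : 1 ≤ p) (i : ℕ) {y : A σ}
    (h : (p : A σ) ^ (i + 1) ∣ (p : A σ) ^ i * y) : (p : A σ) ∣ y := by
  obtain ⟨w, hw⟩ := h
  refine ⟨w, ?_⟩
  have h1 : ((p ^ i : ℕ) : A σ) * (y - p * w) = 0 := by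
    push_cast
    rw [mul_sub, hw]; ring
  have h2 := torsionFree hσ (Nat.one_le_pow _ _ hp) h1
  exact sub_eq_zero.1 h2

/-- `D σ p j a b k`: the exponent `k` is a period of `a + b x` modulo `p ^ j`. -/
def D (σ p j : ℕ) (a b : ℤ) (k : ℕ) : Prop :=
  ∃ l : ℕ, (p : A σ) ^ j ∣ al σ a b ^ (k + l) - al σ a b ^ l

lemma rule_pow_eq_iff {σ n : ℕ} (a b : ℤ) (k l : ℕ) :
    rule σ n (a : ZMod n) (b : ZMod n) ^ (k + l) = rule σ n (a : ZMod n) (b : ZMod n) ^ l ↔
      (n : A σ) ∣ al σ a b ^ (k + l) - al σ a b ^ l := by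
  rw [rule, al, ← map_pow, ← map_pow, ← map_pow, ← map_pow, ← map_sub, dvd_mk_iff,
    AdjoinRoot.mk_eq_mk]
  simp

lemma D_iff {σ p j : ℕ} (hσ : 1 ≤ σ) (hp : 1 ≤ p) (a b : ℤ) (k : ℕ) :
    D σ p j a b k ↔ period σ (p ^ j) (a : ZMod (p ^ j)) (b : ZMod (p ^ j)) ∣ k := by
  have := finite_ring (σ := σ) (n := p ^ j) hσ (Nat.one_le_pow _ _ hp)
  rw [period, ← per_dvd_iff, D]
  apply exists_congr
  intro l
  rw [rule_pow_eq_iff]
  push_cast
  rfl

lemma period_pos {σ n : ℕ} (hσ : 1 ≤ σ) (hn : 1 ≤ n) (a b : ZMod n) : 1 ≤ period σ n a b := by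
  have := finite_ring (σ := σ) (n := n) hσ hn
  exact (Nat.sInf_mem (exists_per (rule σ n a b))).1

lemma D_stable {σ p j : ℕ} {a b : ℤ} {k l : ℕ}
    (h : (p : A σ) ^ j ∣ al σ a b ^ (k + l) - al σ a b ^ l) {L : ℕ} (hL : l ≤ L) :
    (p : A σ) ^ j ∣ al σ a b ^ (k + L) - al σ a b ^ L := by
  obtain ⟨d, rfl⟩ := Nat.exists_eq_add_of_le hL
  have : al σ a b ^ (k + (l + d)) - al σ a b ^ (l + d) =
      (al σ a b ^ (k + l) - al σ a b ^ l) * al σ a b ^ d := by
    rw [sub_mul, ← pow_add, ← pow_add, add_assoc]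
  rw [this]
  exact Dvd.dvd.mul_right h _

/-- Fact U. -/
lemma D_succ {σ p j : ℕ} (hj : 1 ≤ j) {a b : ℤ} {k : ℕ} (h : D σ p j a b k) :
    D σ p (j + 1) a b (p * k) := by
  obtain ⟨l, y, hy⟩ := h
  refine ⟨p * l, ?_⟩
  have h1 : al σ a b ^ (p * k + p * l) = (al σ a b ^ l + (p : A σ) ^ j * y) ^ p := by
    rw [← hy, ← mul_add, mul_comm p, pow_mul]
    congr 1
    ring
  have h2 : al σ a b ^ (p * l) = (al σ a b ^ l) ^ p := by rw [mul_comm, pow_mul]
  rw [h1, h2]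
  obtain ⟨c, hc⟩ := Polynomial.powAddExpansion (al σ a b ^ l) ((p : A σ) ^ j * y) p
  rw [hc]
  have h3 : (al σ a b ^ l) ^ p + p * (al σ a b ^ l) ^ (p - 1) * ((p : A σ) ^ j * y) +
      c * ((p : A σ) ^ j * y) ^ 2 - (al σ a b ^ l) ^ p =
      (p : A σ) ^ (j + 1) * ((al σ a b ^ l) ^ (p - 1) * y) +
        (p : A σ) ^ (j + 1) * (c * (p : A σ) ^ (j - 1) * y ^ 2) := by
    have h4 : (p : A σ) ^ (2 * j) = (p : A σ) ^ (j + 1) * (p : A σ) ^ (j - 1) := by
      rw [← pow_add]; congr 1; omega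
    have h5 : c * ((p : A σ) ^ j * y) ^ 2 = (p : A σ) ^ (2 * j) * (c * y ^ 2) := by
      rw [mul_pow, ← pow_mul, mul_comm j 2]; ring
    rw [h5, h4]
    ring
  rw [h3]
  exact dvd_add (Dvd.intro _ rfl) (Dvd.intro _ rfl)

/-- The binomial expansion of a `p`-th power. -/
lemma pow_prime_expansion {R : Type*} [CommRing R] {p : ℕ} (hp : p.Prime) (hp2 : p ≠ 2) {j : ℕ}
    (hj : 1 ≤ j) (x y : R) :
    ∃ w : R, (x + (p : R) ^ j * y) ^ p = x ^ p + (p : R) ^ (j + 1) * x ^ (p - 1) * y +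
      (p : R) ^ (j + 2) * w := by
  have hp3 : 3 ≤ p := by
    have := hp.two_le
    omega
  obtain ⟨r, rfl⟩ : ∃ r, p = r + 1 := ⟨p - 1, by omega⟩
  have hdvd : ((r + 1 : ℕ) : R) ^ (j + 2) ∣ ∑ m ∈ Finset.range r,
      (((r + 1 : ℕ) : R) ^ j * y) ^ (m + 1 + 1) * x ^ (r + 1 - (m + 1 + 1)) *
        ((r + 1).choose (m + 1 + 1) : R) := by
    apply Finset.dvd_sum
    intro m hm
    rw [Finset.mem_range] at hm
    rw [mul_pow, ← pow_mul]
    by_cases hmr : m + 1 = r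
    · have h1 : j + 2 ≤ j * (m + 1 + 1) := by nlinarith
      have h2 := pow_dvd_pow (((r + 1 : ℕ) : R)) h1
      exact Dvd.dvd.mul_right (Dvd.dvd.mul_right (Dvd.dvd.mul_right h2 _) _) _
    · have h1 : (r + 1) ∣ (r + 1).choose (m + 1 + 1) :=
        hp.dvd_choose_self (by omega) (by omega)
      obtain ⟨c, hc⟩ := h1
      rw [hc]
      have h2 : j + 1 ≤ j * (m + 1 + 1) := by nlinarith
      have h3 := pow_dvd_pow (((r + 1 : ℕ) : R)) h2
      obtain ⟨d, hd⟩ := h3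
      rw [hd]
      refine ⟨d * y ^ (m + 1 + 1) * x ^ (r + 1 - (m + 1 + 1)) * c, ?_⟩
      push_cast
      ring
  obtain ⟨w, hw⟩ := hdvd
  refine ⟨w, ?_⟩
  rw [add_comm x, add_pow, Finset.sum_range_succ', Finset.sum_range_succ', hw]
  simp only [zero_add, pow_zero, Nat.choose_zero_right, Nat.choose_one_right, pow_one, Nat.sub_zero,
    Nat.add_sub_cancel]
  push_cast
  ring

/-- Fact A. -/
lemma D_back {σ p j : ℕ} (hσ : 1 ≤ σ) (hp : p.Prime) (hp2 : p ≠ 2) (hj : 1 ≤ j) {a b : ℤ} {k : ℕ}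
    (h : D σ p j a b k) (h2 : D σ p (j + 2) a b (p * k)) : D σ p (j + 1) a b k := by
  obtain ⟨l, y, hy⟩ := h
  obtain ⟨L, hL⟩ := h2
  obtain ⟨w, hw⟩ := pow_prime_expansion hp hp2 hj (al σ a b ^ l) y
  have h1 := D_stable hL (L := L + p * l) (by omega)
  have h3 : al σ a b ^ (p * k + (L + p * l)) = al σ a b ^ L *
      (al σ a b ^ l + (p : A σ) ^ j * y) ^ p := by
    rw [← hy]
    have : al σ a b ^ l + (al σ a b ^ (k + l) - al σ a b ^ l) = al σ a b ^ (k + l) := by ring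
    rw [this, ← pow_mul, ← pow_add]
    congr 1
    ring
  have h4 : al σ a b ^ (L + p * l) = al σ a b ^ L * (al σ a b ^ l) ^ p := by
    rw [← pow_mul, ← pow_add]
    congr 1
    ring
  rw [h3, h4, hw] at h1
  have h5 : al σ a b ^ L * ((al σ a b ^ l) ^ p + (p : A σ) ^ (j + 1) * (al σ a b ^ l) ^ (p - 1) * y +
      (p : A σ) ^ (j + 2) * w) - al σ a b ^ L * (al σ a b ^ l) ^ p =
      (p : A σ) ^ (j + 1) * (al σ a b ^ L * (al σ a b ^ l) ^ (p - 1) * y) +
      (p : A σ) ^ (j + 2) * (al σ a b ^ L * w) := by ring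
  rw [h5] at h1
  have h6 := (dvd_add_left (Dvd.intro _ rfl)).1 h1
  have h7 := cancel hσ hp.one_le (j + 1) h6
  obtain ⟨v, hv⟩ := h7
  refine ⟨L + l * (p - 1) + l, v, ?_⟩
  have h8 : al σ a b ^ (k + (L + l * (p - 1) + l)) - al σ a b ^ (L + l * (p - 1) + l) =
      al σ a b ^ L * (al σ a b ^ l) ^ (p - 1) * (al σ a b ^ (k + l) - al σ a b ^ l) := by
    rw [← pow_mul, mul_sub, ← pow_add, ← pow_add, ← pow_add]
    congr 2
    ring
  rw [h8, hy]
  calc al σ a b ^ L * (al σ a b ^ l) ^ (p - 1) * ((p : A σ) ^ j * y)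
      = (p : A σ) ^ j * (al σ a b ^ L * (al σ a b ^ l) ^ (p - 1) * y) := by ring
    _ = _ := by rw [hv]; ring

/-! ### The residue field -/

/-- `a + b X` over `ℤ/n`. -/
noncomputable def be (n : ℕ) (a b : ℤ) : (ZMod n)[X] := C (a : ZMod n) + C (b : ZMod n) * X

lemma map_be (n : ℕ) (a b : ℤ) :
    (C a + C b * X : ℤ[X]).map (Int.castRingHom (ZMod n)) = be n a b := by
  simp [be]

lemma dvd_al_iff {σ n : ℕ} (a b : ℤ) (k l : ℕ) :
    (n : A σ) ∣ al σ a b ^ (k + l) - al σ a b ^ l ↔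
      (X ^ σ - 1 : (ZMod n)[X]) ∣ be n a b ^ (k + l) - be n a b ^ l := by
  rw [al, ← map_pow, ← map_pow, ← map_sub, dvd_mk_iff, Polynomial.map_sub, Polynomial.map_pow,
    Polynomial.map_pow, map_be]

lemma D_one_iff {σ p : ℕ} (a b : ℤ) (k : ℕ) :
    D σ p 1 a b k ↔ ∃ l, (X ^ σ - 1 : (ZMod p)[X]) ∣ be p a b ^ (k + l) - be p a b ^ l := by
  apply exists_congr
  intro l
  rw [pow_one, dvd_al_iff]

lemma poly_stable {R : Type*} [CommRing R] {g f : R[X]} {k l L : ℕ}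
    (h : g ∣ f ^ (k + l) - f ^ l) (hL : l ≤ L) : g ∣ f ^ (k + L) - f ^ L := by
  obtain ⟨d, rfl⟩ := Nat.exists_eq_add_of_le hL
  have : f ^ (k + (l + d)) - f ^ (l + d) = (f ^ (k + l) - f ^ l) * f ^ d := by
    rw [sub_mul, ← pow_add, ← pow_add, add_assoc]
  rw [this]
  exact Dvd.dvd.mul_right h _

/-- `a + b x` is nilpotent modulo `p`. -/
def Nil (σ p : ℕ) (a b : ℤ) : Prop := ∃ N, (X ^ σ - 1 : (ZMod p)[X]) ∣ be p a b ^ N

lemma D_one_of_nil {σ p : ℕ} {a b : ℤ} (h : Nil σ p a b) : D σ p 1 a b 1 := by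
  obtain ⟨N, hN⟩ := h
  rw [D_one_iff]
  refine ⟨N, ?_⟩
  have : be p a b ^ (1 + N) - be p a b ^ N = be p a b ^ N * (be p a b - 1) := by ring
  rw [this]
  exact hN.mul_right _

lemma squarefree_X_pow_sub_one {p σ : ℕ} [Fact p.Prime] (h : ¬ p ∣ σ) :
    Squarefree (X ^ σ - 1 : (ZMod p)[X]) := by
  apply Polynomial.Separable.squarefree
  rw [X_pow_sub_one_separable_iff]
  rwa [Ne, ZMod.natCast_eq_zero_iff]

/-- Fact B'. -/
lemma D_one_div {σ p : ℕ} [Fact p.Prime] (hpσ : ¬ p ∣ σ) {a b : ℤ} {k : ℕ}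
    (h : D σ p 1 a b (p * k)) : D σ p 1 a b k := by
  rw [D_one_iff] at h ⊢
  obtain ⟨l, hl⟩ := h
  refine ⟨l, ?_⟩
  have hp1 : 1 ≤ p := (Fact.out : p.Prime).one_le
  have h1 := poly_stable hl (L := p * l) (Nat.le_mul_of_pos_left l hp1)
  have h2 : be p a b ^ (p * k + p * l) - be p a b ^ (p * l) =
      (be p a b ^ (k + l) - be p a b ^ l) ^ p := by
    rw [sub_pow_char, ← pow_mul, ← pow_mul]
    congr 2 <;> ring
  rw [h2] at h1
  exact (squarefree_X_pow_sub_one hpσ).isRadical p _ h1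

lemma al_add (σ p : ℕ) (a b : ℤ) : al σ (a + p) b = al σ a b + (p : A σ) * 1 := by
  rw [al, al, mul_one]
  have : (C (a + (p : ℤ)) + C b * X : ℤ[X]) = (C a + C b * X) + (p : ℤ[X]) := by
    simp; ring
  rw [this, map_add, map_natCast]

/-- Fact B. -/
lemma nil_of_D_two {σ p : ℕ} (hσ : 1 ≤ σ) (hp : p.Prime) {a b : ℤ} {k : ℕ} (hk : ¬ p ∣ k)
    (h1 : D σ p 2 a b k) (h2 : D σ p 2 (a + p) b k) : Nil σ p a b := by
  obtain ⟨l1, hl1⟩ := h1
  obtain ⟨l2, hl2⟩ := h2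
  obtain ⟨L, hL⟩ : ∃ L, L = p * (l1 + l2) := ⟨_, rfl⟩
  have hp1 : 1 ≤ p := hp.one_le
  have hle : l1 + l2 ≤ L := by rw [hL]; exact Nat.le_mul_of_pos_left _ hp1
  have h3 := D_stable hl1 (L := L) (by omega)
  have h4 := D_stable hl2 (L := L) (by omega)
  rw [al_add] at h4
  obtain ⟨c1, hc1⟩ := Polynomial.powAddExpansion (al σ a b) ((p : A σ) * 1) (k + L)
  obtain ⟨c2, hc2⟩ := Polynomial.powAddExpansion (al σ a b) ((p : A σ) * 1) L
  rw [hc1, hc2] at h4
  have h5 := dvd_sub h4 h3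
  obtain ⟨x, hx⟩ : ∃ x, x = al σ a b := ⟨_, rfl⟩
  rw [← hx] at h5
  have h6 : x ^ (k + L) + ((k + L : ℕ) : A σ) * x ^ (k + L - 1) * ((p : A σ) * 1) +
      c1 * ((p : A σ) * 1) ^ 2 - (x ^ L + (L : A σ) * x ^ (L - 1) * ((p : A σ) * 1) +
      c2 * ((p : A σ) * 1) ^ 2) - (x ^ (k + L) - x ^ L) =
      (p : A σ) ^ 1 * ((k : A σ) * x ^ (k + L - 1)) + (p : A σ) ^ 2 *
        (((l1 + l2 : ℕ) : A σ) * x ^ (k + L - 1) - ((l1 + l2 : ℕ) : A σ) * x ^ (L - 1) +
          c1 - c2) := by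
    rw [hL]
    push_cast
    ring
  rw [h6] at h5
  have h7 := (dvd_add_left (Dvd.intro _ rfl)).1 h5
  have h8 := cancel hσ hp1 1 h7
  have h9 : (p : A σ) ∣ x ^ (k + L - 1) := by
    have hcop : IsCoprime (k : ℤ) (p : ℤ) := by
      rw [Nat.isCoprime_iff_coprime]
      exact ((Nat.Prime.coprime_iff_not_dvd hp).2 hk).symm
    obtain ⟨u, v, huv⟩ := hcop
    have h10 : x ^ (k + L - 1) = (u : A σ) * ((k : A σ) * x ^ (k + L - 1)) +
        (p : A σ) * ((v : A σ) * x ^ (k + L - 1)) := by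
      have h11 : (u : A σ) * (k : A σ) + (v : A σ) * (p : A σ) = 1 := by
        have := congrArg (Int.cast : ℤ → A σ) huv
        push_cast at this
        exact this
      calc x ^ (k + L - 1) = ((u : A σ) * (k : A σ) + (v : A σ) * (p : A σ)) *
            x ^ (k + L - 1) := by rw [h11, one_mul]
        _ = _ := by ring
    rw [h10]
    exact dvd_add (h8.mul_left _) (Dvd.intro _ rfl)
  refine ⟨k + L - 1, ?_⟩
  rw [hx, al, ← map_pow, dvd_mk_iff, Polynomial.map_pow, map_be] at h9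
  exact h9

lemma dvd_of_expand_dvd {R : Type*} [CommRing R] [Nontrivial R] {c M : ℕ} (hc : 1 ≤ c)
    (hM : 1 ≤ M) {f : R[X]} (h : (X ^ (c * M) - 1 : R[X]) ∣ expand R c f) :
    (X ^ M - 1 : R[X]) ∣ f := by
  have hm := monic_X_pow_sub_one (R := R) hM
  have hm' := monic_X_pow_sub_one (R := R) (σ := c * M) (by nlinarith)
  rw [← modByMonic_eq_zero_iff_dvd hm]
  obtain ⟨r, hr⟩ : ∃ r, r = f %ₘ (X ^ M - 1) := ⟨_, rfl⟩
  have h1 : r + (X ^ M - 1) * (f /ₘ (X ^ M - 1)) = f := by rw [hr]; exact modByMonic_add_div f _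
  have h2 : (X ^ (c * M) - 1 : R[X]) ∣ expand R c r := by
    rw [← h1, map_add, map_mul] at h
    have h3 : expand R c (X ^ M - 1 : R[X]) = X ^ (c * M) - 1 := by
      simp [← pow_mul]
    rw [h3] at h
    exact (dvd_add_left (Dvd.intro _ rfl)).1 h
  have hdeg : (X ^ M - 1 : R[X]).natDegree = M := by
    have := natDegree_X_pow_sub_C (n := M) (r := (1 : R))
    rwa [C_1] at this
  have hdeg' : (X ^ (c * M) - 1 : R[X]).natDegree = c * M := by
    have := natDegree_X_pow_sub_C (n := c * M) (r := (1 : R))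
    rwa [C_1] at this
  have h4 : r.natDegree < M := by
    have := natDegree_modByMonic_lt f hm (by
      intro h0
      rw [h0, natDegree_one] at hdeg
      omega)
    rw [hdeg] at this
    rw [hr]
    exact this
  have h5 : expand R c r %ₘ (X ^ (c * M) - 1) = 0 := (modByMonic_eq_zero_iff_dvd hm').2 h2
  have h6 : expand R c r %ₘ (X ^ (c * M) - 1) = expand R c r := by
    rw [modByMonic_eq_self_iff hm']
    apply degree_lt_degree
    rw [natDegree_expand, hdeg']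
    nlinarith
  rw [h6] at h5
  rw [← hr]
  exact (expand_eq_zero (by omega)).1 h5

lemma be_pow_pow {p : ℕ} [Fact p.Prime] (a b : ℤ) (t : ℕ) :
    be p a b ^ p ^ t = expand (ZMod p) (p ^ t) (be p a b) := by
  rw [be, add_pow_char_pow, mul_pow, ← C_pow, ← C_pow, ZMod.pow_card_pow, ZMod.pow_card_pow]
  simp

lemma be_pow_mul {p : ℕ} [Fact p.Prime] (a b : ℤ) (t n : ℕ) :
    be p a b ^ (p ^ t * n) = expand (ZMod p) (p ^ t) (be p a b ^ n) := by
  rw [pow_mul, be_pow_pow, map_pow]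

lemma X_pow_sub_one_pow {p : ℕ} [Fact p.Prime] (t M : ℕ) :
    (X ^ (p ^ t * M) - 1 : (ZMod p)[X]) = (X ^ M - 1) ^ p ^ t := by
  rw [sub_pow_char_pow, one_pow, ← pow_mul, mul_comm]

lemma derivative_be (n : ℕ) (a b : ℤ) : derivative (be n a b) = C (b : ZMod n) := by
  simp [be]

/-- Step (i). -/
lemma nil_of_lt {p : ℕ} [Fact p.Prime] {s t σ' k' : ℕ} (hσ' : 1 ≤ σ') (hts : t < s)
    (hk' : ¬ p ∣ k') {a b : ℤ} (hb : (b : ZMod p) ≠ 0)
    (h : D (p ^ s * σ') p 1 a b (p ^ t * k')) : Nil (p ^ s * σ') p a b := by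
  have hp1 : 1 ≤ p := (Fact.out : p.Prime).one_le
  rw [D_one_iff] at h
  obtain ⟨l, hl⟩ := h
  have hpt : 1 ≤ p ^ t := Nat.one_le_pow _ _ hp1
  have h1 := poly_stable hl (L := p ^ t * (p * l)) (by
    calc l ≤ p * l := Nat.le_mul_of_pos_left _ hp1
      _ ≤ _ := Nat.le_mul_of_pos_left _ hpt)
  rw [← mul_add, be_pow_mul, be_pow_mul, ← map_sub] at h1
  obtain ⟨d, hd⟩ : ∃ d, s = t + (d + 1) := ⟨s - t - 1, by omega⟩
  have hσeq : p ^ s * σ' = p ^ t * (p * (p ^ d * σ')) := by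
    rw [hd]; ring
  obtain ⟨M, hM⟩ : ∃ M, M = p * (p ^ d * σ') := ⟨_, rfl⟩
  have hM1 : 1 ≤ M := by rw [hM]; exact Nat.mul_pos hp1 (Nat.mul_pos (Nat.pow_pos hp1) hσ')
  rw [hσeq, ← hM] at h1 ⊢
  have h2 := dvd_of_expand_dvd hpt hM1 h1
  obtain ⟨H, hH⟩ := h2
  have h3 := congrArg derivative hH
  have hMp : (M : ZMod p) = 0 := by rw [hM]; push_cast; simp
  rw [derivative_sub, derivative_pow, derivative_pow, derivative_be, derivative_mul,
    derivative_sub, derivative_X_pow, derivative_one, hMp] at h3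
  have h4 : C ((k' : ZMod p) * (b : ZMod p)) * be p a b ^ (k' + p * l - 1) =
      (X ^ M - 1) * derivative H := by
    have h5 : ((k' + p * l : ℕ) : ZMod p) = k' := by push_cast; simp
    have h6 : ((p * l : ℕ) : ZMod p) = 0 := by push_cast; simp
    rw [h5, h6] at h3
    rw [C_mul]
    simp only [C_0, zero_mul, sub_zero, zero_add] at h3
    rw [← h3]
    ring
  have hu : (k' : ZMod p) * (b : ZMod p) ≠ 0 := by
    apply mul_ne_zero _ hb
    rwa [Ne, ZMod.natCast_eq_zero_iff]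
  have h7 : (X ^ M - 1 : (ZMod p)[X]) ∣ be p a b ^ (k' + p * l - 1) := by
    have h8 : be p a b ^ (k' + p * l - 1) = (X ^ M - 1) *
        (C ((k' : ZMod p) * (b : ZMod p))⁻¹ * derivative H) := by
      calc be p a b ^ (k' + p * l - 1) = C ((k' : ZMod p) * (b : ZMod p))⁻¹ *
            (C ((k' : ZMod p) * (b : ZMod p)) * be p a b ^ (k' + p * l - 1)) := by
            rw [← mul_assoc, ← C_mul, inv_mul_cancel₀ hu, C_1, one_mul]
        _ = _ := by rw [h4]; ring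
    exact ⟨_, h8⟩
  refine ⟨(k' + p * l - 1) * p ^ t, ?_⟩
  rw [X_pow_sub_one_pow, pow_mul]
  exact pow_dvd_pow_of_dvd h7 _

/-- Step (ii). -/
lemma D_one_div' {p : ℕ} [Fact p.Prime] {s σ' κ : ℕ} (hσ' : 1 ≤ σ') (hpσ : ¬ p ∣ σ') {a b : ℤ}
    (h : D (p ^ s * σ') p 1 a b (p ^ s * (p * κ))) : D (p ^ s * σ') p 1 a b (p ^ s * κ) := by
  have hp1 : 1 ≤ p := (Fact.out : p.Prime).one_le
  rw [D_one_iff] at h ⊢
  obtain ⟨l, hl⟩ := h
  have hps : 1 ≤ p ^ s := Nat.one_le_pow _ _ hp1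
  have h1 := poly_stable hl (L := p ^ s * (p * l)) (by
    calc l ≤ p * l := Nat.le_mul_of_pos_left _ hp1
      _ ≤ _ := Nat.le_mul_of_pos_left _ hps)
  rw [← mul_add, be_pow_mul, be_pow_mul, ← map_sub] at h1
  have h2 := dvd_of_expand_dvd hps hσ' h1
  have h3 : be p a b ^ (p * κ + p * l) - be p a b ^ (p * l) =
      (be p a b ^ (κ + l) - be p a b ^ l) ^ p := by
    rw [sub_pow_char, ← pow_mul, ← pow_mul]
    congr 2 <;> ring
  rw [h3] at h2
  have h4 := (squarefree_X_pow_sub_one hpσ).isRadical p _ h2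
  refine ⟨p ^ s * l, ?_⟩
  rw [X_pow_sub_one_pow, ← mul_add, mul_comm (p ^ s), mul_comm (p ^ s), pow_mul, pow_mul,
    ← sub_pow_char_pow]
  exact pow_dvd_pow_of_dvd h4 _

/-- The argument with two derivatives. -/
lemma derivative_argument {p : ℕ} [Fact p.Prime] {σ' k' l : ℕ} (hσ' : 1 ≤ σ')
    (hk' : ¬ p ∣ k') {a b : ℤ} (ha : (a : ZMod p) ≠ 0) (hb : (b : ZMod p) ≠ 0) (hl : 1 ≤ l)
    (h : (X ^ (p * σ') - 1 : (ZMod (p ^ 2))[X]) ∣
      be (p ^ 2) a b ^ (p * k' + p ^ 2 * l) - be (p ^ 2) a b ^ (p ^ 2 * l)) :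
    ∃ N, (X ^ (p * σ') - 1 : (ZMod p)[X]) ∣ be p a b ^ N := by
  have hp0 : p ≠ 0 := (Fact.out : p.Prime).ne_zero
  have hp1 : 1 ≤ p := (Fact.out : p.Prime).one_le
  obtain ⟨M, hM⟩ : ∃ M, M = p * σ' := ⟨_, rfl⟩
  have hM1 : 1 ≤ M := by rw [hM]; exact Nat.mul_pos hp1 hσ'
  rw [← hM] at h ⊢
  -- lift to the integers
  obtain ⟨B, hB⟩ : ∃ B : ℤ[X], B = C a + C b * X := ⟨_, rfl⟩
  have hBd : derivative B = C b := by rw [hB]; simp
  obtain ⟨n1, hn1⟩ : ∃ n1, n1 = p * k' + p ^ 2 * l := ⟨_, rfl⟩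
  obtain ⟨n2, hn2⟩ : ∃ n2, n2 = p ^ 2 * l := ⟨_, rfl⟩
  rw [← hn1, ← hn2] at h
  have hn2pos : 1 ≤ n2 := by rw [hn2]; exact Nat.mul_pos (Nat.pow_pos hp1) hl
  have hn1pos : 1 ≤ n1 := by omega
  have hlift : ∃ H G : ℤ[X], B ^ n1 - B ^ n2 = (X ^ M - 1) * H + C ((p : ℤ) ^ 2) * G := by
    rw [← map_be, ← Polynomial.map_pow, ← Polynomial.map_pow, ← Polynomial.map_sub,
      ← dvd_mk_iff] at h
    obtain ⟨y, hy⟩ := h
    obtain ⟨G, rfl⟩ := AdjoinRoot.mk_surjective y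
    have h1 : AdjoinRoot.mk (X ^ M - 1 : ℤ[X]) (B ^ n1 - B ^ n2 - C ((p : ℤ) ^ 2) * G) = 0 := by
      rw [map_sub, map_mul, hB, hy]
      simp
    rw [AdjoinRoot.mk_eq_zero] at h1
    obtain ⟨H, hH⟩ := h1
    exact ⟨H, G, by rw [← hH]; ring⟩
  obtain ⟨H, G, hHG⟩ := hlift
  have hder := congrArg derivative hHG
  rw [derivative_sub, derivative_pow, derivative_pow, hBd, derivative_add, derivative_mul,
    derivative_sub, derivative_X_pow, derivative_one, derivative_C_mul] at hder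
  -- divisibility of the derivative of H by p
  have hPp : (C (p : ℤ) : ℤ[X]) ≠ 0 := by
    rw [Ne, C_eq_zero]
    exact_mod_cast hp0
  obtain ⟨K, hK⟩ : ∃ K : ℤ[X], K = C b * (((p * l : ℕ) + k' : ℕ) : ℤ[X]) * B ^ (n1 - 1) -
      C b * ((p * l : ℕ) : ℤ[X]) * B ^ (n2 - 1) - (σ' : ℤ[X]) * X ^ (M - 1) * H -
      C (p : ℤ) * derivative G := ⟨_, rfl⟩
  have hKeq : C (p : ℤ) * K = (X ^ M - 1) * derivative H := by
    have h1 : C ((n1 : ℤ)) * B ^ (n1 - 1) * C b - C ((n2 : ℤ)) * B ^ (n2 - 1) * C b =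
        (C (M : ℤ) * X ^ (M - 1) - 0) * H + (X ^ M - 1) * derivative H +
          C ((p : ℤ) ^ 2) * derivative G := by
      simpa using hder
    have h2 : (X ^ M - 1) * derivative H = C ((n1 : ℤ)) * B ^ (n1 - 1) * C b -
        C ((n2 : ℤ)) * B ^ (n2 - 1) * C b - C (M : ℤ) * X ^ (M - 1) * H -
          C ((p : ℤ) ^ 2) * derivative G := by
      rw [h1]; ring
    rw [h2, hK, hn1, hn2, hM]
    simp only [Nat.cast_add, Nat.cast_mul, Nat.cast_pow, map_add, map_mul, map_pow, map_natCast]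
    ring
  have hHdvd : C (p : ℤ) ∣ derivative H := by
    rw [← map_eq_zero_iff_dvd]
    have h1 := congrArg (Polynomial.map (Int.castRingHom (ZMod p))) hKeq
    rw [Polynomial.map_mul, Polynomial.map_mul] at h1
    have h2 : (C (p : ℤ) : ℤ[X]).map (Int.castRingHom (ZMod p)) = 0 := by simp
    rw [h2, zero_mul] at h1
    have h3 : ((X ^ M - 1 : ℤ[X]).map (Int.castRingHom (ZMod p))) ≠ 0 := by
      have h4 : (X ^ M - 1 : ℤ[X]).map (Int.castRingHom (ZMod p)) = X ^ M - 1 := by simp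
      rw [h4]
      exact (monic_X_pow_sub_one hM1).ne_zero
    exact (mul_eq_zero.1 h1.symm).resolve_left h3
  obtain ⟨H1, hH1⟩ := hHdvd
  have hKeq2 : K = (X ^ M - 1) * H1 := by
    apply mul_left_cancel₀ hPp
    rw [hKeq, hH1]; ring
  -- reduce modulo p
  obtain ⟨φ, hφ⟩ : ∃ φ : ℤ[X] →+* (ZMod p)[X], φ = Polynomial.mapRingHom (Int.castRingHom (ZMod p)) :=
    ⟨_, rfl⟩
  have hφB : φ B = be p a b := by
    rw [hφ, hB, coe_mapRingHom, map_be]
  have hφH : derivative (φ H) = 0 := by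
    rw [hφ, coe_mapRingHom, derivative_map, hH1]
    simp
  have hred := congrArg φ hKeq2
  rw [hK] at hred
  have hX : φ X = X := by rw [hφ]; simp
  have hCb : φ (C b) = C (b : ZMod p) := by rw [hφ]; simp
  have hCp : ((p : ℕ) : (ZMod p)[X]) = 0 := by simp
  simp only [map_sub, map_mul, map_pow, map_natCast, map_one, hφB, hX, hCb, hCp, zero_mul,
    sub_zero] at hred
  have hpl : (((p * l : ℕ)) : (ZMod p)[X]) = 0 := by
    rw [Nat.cast_mul]
    simp
  have hplk : ((p * l + k' : ℕ) : (ZMod p)[X]) = (k' : (ZMod p)[X]) := by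
    rw [Nat.cast_add, hpl, zero_add]
  rw [hpl, hplk] at hred
  simp only [mul_zero, zero_mul, sub_zero] at hred
  -- multiply by X and differentiate
  obtain ⟨β, hβ⟩ : ∃ β, β = be p a b := ⟨_, rfl⟩
  have hβd : derivative β = C (b : ZMod p) := by rw [hβ]; exact derivative_be _ _ _
  rw [← hβ] at hred ⊢
  have hMp : (M : ZMod p) = 0 := by rw [hM]; push_cast; simp
  have h1 : C (b : ZMod p) * (k' : (ZMod p)[X]) * (X * β ^ (n1 - 1)) =
      (σ' : (ZMod p)[X]) * (X ^ M * φ H) + (X ^ M - 1) * (X * φ H1) := by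
    have h2 : C (b : ZMod p) * (k' : (ZMod p)[X]) * β ^ (n1 - 1) =
        (σ' : (ZMod p)[X]) * X ^ (M - 1) * φ H + (X ^ M - 1) * φ H1 := by
      rw [← hred]; ring
    have h3 : (X : (ZMod p)[X]) ^ M = X * X ^ (M - 1) := by
      rw [← pow_succ', Nat.sub_add_cancel hM1]
    calc C (b : ZMod p) * (k' : (ZMod p)[X]) * (X * β ^ (n1 - 1))
        = X * (C (b : ZMod p) * (k' : (ZMod p)[X]) * β ^ (n1 - 1)) := by ring
      _ = _ := by rw [h2, h3]; ring
  have h4 := congrArg derivative h1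
  have hn1p : ((n1 - 1 : ℕ) : ZMod p) = -1 := by
    rw [Nat.cast_sub hn1pos, hn1]
    push_cast
    simp
  have hβX : β = C (a : ZMod p) + C (b : ZMod p) * X := by rw [hβ]; rfl
  obtain ⟨N, hN⟩ : ∃ N, n1 - 1 = N + 1 := by
    refine ⟨n1 - 2, ?_⟩
    have : 2 ≤ n2 := by
      rw [hn2]
      have h5 : 2 ≤ p := (Fact.out : p.Prime).two_le
      nlinarith
    omega
  rw [hN] at h4 hn1p
  have hNp : (C ((N + 1 : ℕ) : ZMod p) : (ZMod p)[X]) = -1 := by rw [hn1p]; simp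
  have hk'd : derivative ((k' : (ZMod p)[X])) = 0 := derivative_natCast
  have hσ'd : derivative ((σ' : (ZMod p)[X])) = 0 := derivative_natCast
  simp only [derivative_mul, derivative_C, derivative_X, derivative_pow, hβd, derivative_sub,
    hMp, derivative_one, hφH, derivative_add, hk'd, hσ'd, C_0, zero_mul,
    mul_zero, add_zero, zero_add, sub_zero, one_mul, mul_one, Nat.add_sub_cancel, hNp] at h4
  have h5 : C ((k' : ZMod p) * (b : ZMod p) * (a : ZMod p)) * β ^ N = (X ^ M - 1) *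
      derivative (X * φ H1) := by
    have h6 : (X ^ M - 1) * derivative (X * φ H1) =
        (X ^ M - 1) * (φ H1 + X * derivative (φ H1)) := by
      rw [derivative_mul, derivative_X, one_mul]
    rw [h6, ← h4]
    rw [C_mul, C_mul]
    have h7 : (C (k' : ZMod p) : (ZMod p)[X]) = (k' : (ZMod p)[X]) := by simp
    rw [h7]
    have h8 : β ^ (N + 1) = (C (a : ZMod p) + C (b : ZMod p) * X) * β ^ N := by
      rw [pow_succ, ← hβX]; ring
    rw [h8]
    ring
  have hu : (k' : ZMod p) * (b : ZMod p) * (a : ZMod p) ≠ 0 := by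
    apply mul_ne_zero (mul_ne_zero _ hb) ha
    rwa [Ne, ZMod.natCast_eq_zero_iff]
  refine ⟨N, C ((k' : ZMod p) * (b : ZMod p) * (a : ZMod p))⁻¹ * derivative (X * φ H1), ?_⟩
  calc β ^ N = C ((k' : ZMod p) * (b : ZMod p) * (a : ZMod p))⁻¹ *
        (C ((k' : ZMod p) * (b : ZMod p) * (a : ZMod p)) * β ^ N) := by
        rw [← mul_assoc, ← C_mul, inv_mul_cancel₀ hu, C_1, one_mul]
    _ = _ := by rw [h5]; ring

lemma dvd_pow_sub_pow_of_dvd {R : Type*} [CommRing R] {c x y : R} (h : c ∣ x - y) (n : ℕ) :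
    c ∣ x ^ n - y ^ n := h.trans (sub_dvd_pow_sub_pow x y n)

/-- Step (iii). -/
lemma nil_of_eq {p : ℕ} [Fact p.Prime] {s σ' k' : ℕ} (hσ' : 1 ≤ σ') (hk' : ¬ p ∣ k')
    {a b : ℤ} (ha : (a : ZMod p) ≠ 0) (hb : (b : ZMod p) ≠ 0)
    (h : D (p ^ (s + 1) * σ') p 2 a b (p ^ (s + 1) * k')) : Nil (p ^ (s + 1) * σ') p a b := by
  have hp1 : 1 ≤ p := (Fact.out : p.Prime).one_le
  obtain ⟨l, hl⟩ := h
  obtain ⟨L, hL⟩ : ∃ L, L = l + 1 := ⟨_, rfl⟩
  have hps : 1 ≤ p ^ s := Nat.one_le_pow _ _ hp1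
  have h1 := D_stable hl (L := p ^ (s + 1) * (p ^ 1 * L)) (by
    calc l ≤ L := by omega
      _ ≤ p ^ 1 * L := Nat.le_mul_of_pos_left _ (by positivity)
      _ ≤ _ := Nat.le_mul_of_pos_left _ (by positivity))
  rw [← Nat.cast_pow, dvd_al_iff] at h1
  -- the congruence between powers
  obtain ⟨B, hB⟩ : ∃ B : ℤ[X], B = C a + C b * X := ⟨_, rfl⟩
  have hE : C (p : ℤ) ∣ B ^ p ^ s - expand ℤ (p ^ s) B := by
    rw [← map_eq_zero_iff_dvd, Polynomial.map_sub, Polynomial.map_pow, map_expand, hB, map_be,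
      be_pow_pow, sub_self]
  have hE2 : C ((p : ℤ) ^ 2) ∣ B ^ p ^ (s + 1) - (expand ℤ (p ^ s) B) ^ p := by
    obtain ⟨z, hz⟩ := hE
    have h2 : B ^ p ^ (s + 1) = (expand ℤ (p ^ s) B + C (p : ℤ) * z) ^ p := by
      rw [← hz, pow_succ, pow_mul]
      congr 1
      ring
    obtain ⟨c, hc⟩ := Polynomial.powAddExpansion (expand ℤ (p ^ s) B) (C (p : ℤ) * z) p
    rw [h2, hc]
    refine ⟨(expand ℤ (p ^ s) B) ^ (p - 1) * z + c * z ^ 2, ?_⟩
    have h3 : ((p : ℕ) : ℤ[X]) = C (p : ℤ) := by simp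
    rw [h3, C_pow]
    ring
  have hE3 : ∀ n : ℕ, be (p ^ 2) a b ^ (p ^ (s + 1) * n) =
      expand (ZMod (p ^ 2)) (p ^ s) (be (p ^ 2) a b ^ (p * n)) := by
    intro n
    have h2 := dvd_pow_sub_pow_of_dvd hE2 n
    have h3 : (C (((p ^ 2 : ℕ) : ℤ)) : ℤ[X]) ∣
        (B ^ p ^ (s + 1)) ^ n - ((expand ℤ (p ^ s) B) ^ p) ^ n := by
      push_cast
      exact h2
    rw [← map_eq_zero_iff_dvd, Polynomial.map_sub, sub_eq_zero, Polynomial.map_pow,
      Polynomial.map_pow, Polynomial.map_pow, Polynomial.map_pow, map_expand, hB, map_be,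
      ← pow_mul, ← pow_mul] at h3
    rw [h3, map_pow]
  have hσeq : p ^ (s + 1) * σ' = p ^ s * (p * σ') := by ring
  rw [← mul_add, hE3, hE3, ← map_sub, hσeq] at h1
  have : Nontrivial (ZMod (p ^ 2)) := by
    have : Fact (1 < p ^ 2) := ⟨Nat.one_lt_pow (by norm_num) (Fact.out : p.Prime).one_lt⟩
    infer_instance
  have h2 := dvd_of_expand_dvd hps (Nat.mul_pos hp1 hσ') h1
  have h3 : p * (k' + p ^ 1 * L) = p * k' + p ^ 2 * L := by ring
  have h4 : p * (p ^ 1 * L) = p ^ 2 * L := by ring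
  rw [h3, h4] at h2
  obtain ⟨N, hN⟩ := derivative_argument hσ' hk' ha hb (by omega) h2
  refine ⟨N * p ^ s, ?_⟩
  rw [hσeq, X_pow_sub_one_pow, pow_mul (be p a b)]
  exact pow_dvd_pow_of_dvd hN _

/-- Fact C: for `p ∣ σ` and `a b ≠ 0` modulo `p`, the period modulo `p` is not a period modulo `p ^ 2`. -/
lemma not_D_two {σ p : ℕ} [Fact p.Prime] (hσ : 1 ≤ σ) (hpσ : p ∣ σ) {a b : ℤ}
    (ha : (a : ZMod p) ≠ 0) (hb : (b : ZMod p) ≠ 0) (hnil : ¬ Nil σ p a b) {k : ℕ} (hk : 1 ≤ k)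
    (hmin : ∀ k', D σ p 1 a b k' → k ∣ k') (h1 : D σ p 1 a b k) : ¬ D σ p 2 a b k := by
  intro h2
  have hp : p.Prime := Fact.out
  obtain ⟨s, σ', hpσ', hσeq⟩ := Nat.exists_eq_pow_mul_and_not_dvd (by omega : σ ≠ 0) p hp.ne_one
  obtain ⟨t, k', hpk', hkeq⟩ := Nat.exists_eq_pow_mul_and_not_dvd (by omega : k ≠ 0) p hp.ne_one
  have hσ' : 1 ≤ σ' := by
    rcases Nat.eq_zero_or_pos σ' with h | h
    · rw [h] at hσeq; omega
    · exact h
  have hk'0 : 1 ≤ k' := by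
    rcases Nat.eq_zero_or_pos k' with h | h
    · rw [h] at hkeq; omega
    · exact h
  rcases lt_trichotomy t s with h | h | h
  · apply hnil
    rw [hσeq] at h1 ⊢
    rw [hkeq] at h1
    exact nil_of_lt hσ' h hpk' hb h1
  · subst h
    obtain ⟨s, rfl⟩ : ∃ r, t = r + 1 := by
      refine ⟨t - 1, ?_⟩
      have : t ≠ 0 := by
        rintro rfl
        rw [hσeq] at hpσ
        simp at hpσ
        exact hpσ' hpσ
      omega
    apply hnil
    rw [hσeq] at h2 ⊢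
    rw [hkeq] at h2
    exact nil_of_eq hσ' hpk' ha hb h2
  · obtain ⟨d, hd⟩ : ∃ d, t = s + (d + 1) := ⟨t - s - 1, by omega⟩
    have h3 : k = p ^ s * (p * (p ^ d * k')) := by rw [hkeq, hd]; ring
    rw [h3, hσeq] at h1
    have h4 := D_one_div' hσ' hpσ' h1
    rw [← hσeq] at h4
    have h5 := hmin _ h4
    have h6 : 0 < p ^ s * (p ^ d * k') := Nat.mul_pos (Nat.pow_pos hp.pos) (Nat.mul_pos (Nat.pow_pos hp.pos) hk'0)
    have h7 := Nat.le_of_dvd h6 h5
    rw [h3] at h7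
    have h8 : p ^ s * (p * (p ^ d * k')) = p * (p ^ s * (p ^ d * k')) := by ring
    rw [h8] at h7
    have := hp.two_le
    nlinarith

/-! ### The element `c (1 + x)` -/

lemma bezout_X_pow_sub_one {R : Type*} [CommRing R] (m n : ℕ) :
    ∃ u v : R[X], u * (X ^ m - 1) + v * (X ^ n - 1) = X ^ (Nat.gcd m n) - 1 := by
  induction m, n using Nat.gcd.induction with
  | H0 n => exact ⟨0, 1, by simp⟩
  | H1 m n hm ih =>
    obtain ⟨u, v, huv⟩ := ih
    rw [Nat.gcd_rec m n]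
    have h1 : (X ^ n - 1 : R[X]) = X ^ (n % m) * (X ^ (m * (n / m)) - 1) + (X ^ (n % m) - 1) := by
      have : (X : R[X]) ^ n = X ^ (n % m) * X ^ (m * (n / m)) := by
        rw [← pow_add, Nat.mod_add_div]
      rw [this]; ring
    obtain ⟨w, hw⟩ : (X ^ m - 1 : R[X]) ∣ X ^ (m * (n / m)) - 1 := by
      rw [pow_mul]
      exact sub_one_dvd_pow_sub_one _ _
    refine ⟨v - u * X ^ (n % m) * w, u, ?_⟩
    rw [← huv, h1, hw]
    ring

/-- If `c (1 + x)` has period `k` and `2 c` is a primitive root, then `k` is divisible by `p - 1` and by `σ`. -/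
lemma star_period {σ p : ℕ} [Fact p.Prime] (hσ : 1 ≤ σ) (hp2 : p ≠ 2) {c : ℤ}
    (hc : orderOf (2 * (c : ZMod p)) = p - 1) {k : ℕ} (h : D σ p 1 c c k) :
    (p - 1) ∣ k ∧ σ ∣ k := by
  have hp : p.Prime := Fact.out
  have hp3 : 3 ≤ p := by have := hp.two_le; omega
  rw [D_one_iff] at h
  obtain ⟨l, hl⟩ := h
  have hc0 : (c : ZMod p) ≠ 0 := by
    intro h0
    rw [h0, mul_zero] at hc
    have h1 : orderOf (0 : ZMod p) = 0 := by
      rw [orderOf_eq_zero_iff']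
      intro n hn
      rw [zero_pow (by omega)]
      exact zero_ne_one
    rw [h1] at hc
    omega
  have h20 : (2 : ZMod p) ≠ 0 := by
    intro h0
    have h1 : ((2 : ℕ) : ZMod p) = 0 := by exact_mod_cast h0
    rw [ZMod.natCast_eq_zero_iff] at h1
    have := Nat.le_of_dvd (by norm_num) h1
    omega
  have hfirst : (p - 1) ∣ k := by
    obtain ⟨H, hH⟩ := hl
    have h1 := congrArg (Polynomial.eval 1) hH
    simp only [be, eval_sub, eval_pow, eval_add, eval_C, eval_mul, eval_X, mul_one, eval_one,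
      one_pow, sub_self, zero_mul] at h1
    rw [← two_mul, sub_eq_zero] at h1
    rw [← hc]
    apply orderOf_dvd_of_pow_eq_one
    have h2 : (2 * (c : ZMod p)) ^ l ≠ 0 := pow_ne_zero _ (mul_ne_zero h20 hc0)
    apply mul_right_cancel₀ h2
    rw [← pow_add, h1, one_mul]
  refine ⟨hfirst, ?_⟩
  -- the palindromic argument
  have hcomp : (X ^ σ - 1 : (ZMod p)[X]) ∣
      (be p c c ^ (k + l) - be p c c ^ l).comp (X ^ (σ - 1)) := by
    obtain ⟨H, hH⟩ := hl
    rw [hH, mul_comp, sub_comp, pow_comp, X_comp, one_comp, ← pow_mul, mul_comm (σ - 1), pow_mul]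
    exact Dvd.dvd.mul_right (sub_one_dvd_pow_sub_one _ _) _
  have hXσ : (X : (ZMod p)[X]) * X ^ (σ - 1) = X ^ σ := by
    rw [← pow_succ', Nat.sub_add_cancel hσ]
  have hbe : be p c c = C (c : ZMod p) * (1 + X) := by rw [be]; ring
  have hsw : ∀ n : ℕ, (X ^ σ - 1 : (ZMod p)[X]) ∣
      X ^ n * ((be p c c).comp (X ^ (σ - 1))) ^ n - be p c c ^ n := by
    intro n
    rw [← mul_pow]
    apply dvd_pow_sub_pow_of_dvd
    rw [hbe, mul_comp, C_comp, add_comp, one_comp, X_comp]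
    refine ⟨C (c : ZMod p), ?_⟩
    linear_combination (C (c : ZMod p)) * hXσ
  have hkey : (X ^ σ - 1 : (ZMod p)[X]) ∣ (X ^ k - 1) * be p c c ^ l := by
    have h1 := (hcomp.mul_left (X ^ (k + l)))
    rw [sub_comp, pow_comp, pow_comp] at h1
    have h2 := hsw (k + l)
    have h3 := (hsw l).mul_left (X ^ k)
    have h4 : (X ^ k - 1) * be p c c ^ l =
        (be p c c ^ (k + l) - be p c c ^ l) +
        (X ^ (k + l) * ((be p c c).comp (X ^ (σ - 1))) ^ (k + l) - be p c c ^ (k + l)) -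
        X ^ (k + l) * (((be p c c).comp (X ^ (σ - 1))) ^ (k + l) -
          ((be p c c).comp (X ^ (σ - 1))) ^ l) -
        X ^ k * (X ^ l * ((be p c c).comp (X ^ (σ - 1))) ^ l - be p c c ^ l) := by
      rw [pow_add X k l]; ring
    rw [h4]
    exact dvd_sub (dvd_sub (dvd_add hl h2) h1) h3
  have hkey2 : (X ^ σ - 1 : (ZMod p)[X]) ∣ (X ^ k - 1) * (1 + X) ^ l := by
    have hu : IsUnit (C ((c : ZMod p) ^ l) : (ZMod p)[X]) :=
      isUnit_C.2 (IsUnit.mk0 _ (pow_ne_zero _ hc0))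
    have h1 : (X ^ k - 1) * be p c c ^ l = (X ^ k - 1) * (1 + X) ^ l * C ((c : ZMod p) ^ l) := by
      rw [hbe, mul_pow, C_pow]; ring
    rw [h1] at hkey
    exact (hu.dvd_mul_right).1 hkey
  -- pass to the gcd
  obtain ⟨d, hd⟩ : ∃ d, d = Nat.gcd σ k := ⟨_, rfl⟩
  have hdpos : 1 ≤ d := by rw [hd]; exact Nat.gcd_pos_of_pos_left _ hσ
  obtain ⟨e, he⟩ : d ∣ σ := by rw [hd]; exact Nat.gcd_dvd_left _ _
  have hepos : 1 ≤ e := by
    rcases Nat.eq_zero_or_pos e with h | h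
    · rw [h] at he; omega
    · exact h
  have hgcd : (X ^ σ - 1 : (ZMod p)[X]) ∣ (X ^ d - 1) * (1 + X) ^ l := by
    obtain ⟨u, v, huv⟩ := bezout_X_pow_sub_one (R := ZMod p) σ k
    rw [hd, ← huv, add_mul]
    apply dvd_add
    · exact Dvd.intro (u * (1 + X) ^ l) (by ring)
    · rw [mul_assoc]
      exact hkey2.mul_left _
  have hQ : (X ^ σ - 1 : (ZMod p)[X]) = (X ^ d - 1) * ∑ i ∈ Finset.range e, (X ^ d) ^ i := by
    rw [mul_comm, geom_sum_mul, ← pow_mul, he]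
  obtain ⟨Q, hQdef⟩ : ∃ Q : (ZMod p)[X], Q = ∑ i ∈ Finset.range e, (X ^ d) ^ i := ⟨_, rfl⟩
  rw [← hQdef] at hQ
  have hd0 : (X ^ d - 1 : (ZMod p)[X]) ≠ 0 := (monic_X_pow_sub_one hdpos).ne_zero
  have hQdvd : Q ∣ (1 + X) ^ l := by
    rw [hQ] at hgcd
    exact (mul_dvd_mul_iff_left hd0).1 hgcd
  have hprime : Prime (1 + X : (ZMod p)[X]) := by
    have := prime_X_sub_C (-1 : ZMod p)
    rw [C_neg, C_1, sub_neg_eq_add, add_comm] at this
    exact this
  have hQ1 : (e : ZMod p) ≠ 0 := by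
    obtain ⟨W, hW⟩ := hQdvd
    have h1 := congrArg (Polynomial.eval 1) hW
    rw [eval_mul, hQdef, eval_pow, eval_add, eval_one, eval_X, eval_finsetSum] at h1
    simp only [eval_pow, eval_X, one_pow, Finset.sum_const, Finset.card_range, nsmul_eq_mul,
      mul_one] at h1
    intro h0
    rw [h0, zero_mul] at h1
    have h2 : (1 + 1 : ZMod p) = 2 := by norm_num
    rw [h2] at h1
    exact pow_ne_zero _ h20 h1
  by_contra hnot
  have he2 : 2 ≤ e := by
    by_contra hlt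
    have h1 : e = 1 := by omega
    apply hnot
    rw [he, h1, mul_one, hd]
    exact Nat.gcd_dvd_right _ _
  have hQm1 : Polynomial.eval (-1) Q = 0 := by
    obtain ⟨i, hi, hass⟩ := (dvd_prime_pow hprime l).1 hQdvd
    have hi0 : i ≠ 0 := by
      rintro rfl
      rw [pow_zero] at hass
      have h1 : IsUnit Q := (associated_one_iff_isUnit).1 hass
      have h2 : IsUnit (X ^ σ - 1 : (ZMod p)[X]) ∨ True := Or.inr trivial
      have hdegQ : Q.natDegree = 0 := natDegree_eq_zero_of_isUnit h1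
      have hdeg1 : (X ^ σ - 1 : (ZMod p)[X]).natDegree = σ := by
        have := natDegree_X_pow_sub_C (n := σ) (r := (1 : ZMod p))
        rwa [C_1] at this
      have hdeg2 : (X ^ d - 1 : (ZMod p)[X]).natDegree = d := by
        have := natDegree_X_pow_sub_C (n := d) (r := (1 : ZMod p))
        rwa [C_1] at this
      rw [hQ, natDegree_mul hd0 h1.ne_zero, hdegQ, hdeg2, add_zero, he] at hdeg1
      nlinarith
    have h1 : (1 + X : (ZMod p)[X]) ∣ Q := (dvd_pow_self _ hi0).trans hass.symm.dvd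
    obtain ⟨W, hW⟩ := h1
    rw [hW, eval_mul, eval_add, eval_one, eval_X]
    simp
  rw [hQdef, eval_finsetSum] at hQm1
  simp only [eval_pow, eval_X] at hQm1
  have hkeven : 2 ∣ k := by
    have h1 : 2 ∣ p - 1 := by
      have := hp.eq_two_or_odd
      omega
    exact h1.trans hfirst
  rcases Nat.even_or_odd d with hde | hdo
  · rw [hde.neg_one_pow] at hQm1
    simp only [one_pow, Finset.sum_const, Finset.card_range, nsmul_eq_mul, mul_one] at hQm1
    exact hQ1 hQm1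
  · rw [hdo.neg_one_pow] at hQm1
    have hσodd : ¬ 2 ∣ σ := by
      intro h2
      have h3 : 2 ∣ d := by rw [hd]; exact Nat.dvd_gcd h2 hkeven
      rw [Nat.odd_iff] at hdo
      omega
    have heodd : Odd e := by
      by_contra hne
      rw [Nat.not_odd_iff_even] at hne
      apply hσodd
      rw [he]
      exact (even_iff_two_dvd.1 hne).mul_left _
    rw [neg_one_geom_sum, if_neg (by rwa [Nat.not_even_iff_odd])] at hQm1
    exact one_ne_zero hQm1

lemma trivial_period {σ p : ℕ} [Fact p.Prime] {a b : ℤ}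
    (h0 : (a : ZMod p) = 0 ∨ (b : ZMod p) = 0) {L : ℕ} (hL : 1 ≤ L) (h1 : (p - 1) ∣ L)
    (h2 : σ ∣ L) : D σ p 1 a b L := by
  have hpow : ∀ u : ZMod p, u ≠ 0 → u ^ L = 1 := by
    intro u hu
    obtain ⟨m, rfl⟩ := h1
    rw [pow_mul, ZMod.pow_card_sub_one_eq_one hu, one_pow]
  rw [D_one_iff]
  rcases h0 with h | h
  · by_cases hb : (b : ZMod p) = 0
    · refine ⟨1, ?_⟩
      rw [be, h, hb]
      simp
    · refine ⟨0, ?_⟩
      rw [be, h, C_0, zero_add, mul_pow, mul_pow, ← C_pow, ← C_pow]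
      simp only [add_zero, pow_zero, C_1, mul_one]
      rw [hpow _ hb, C_1, one_mul]
      obtain ⟨m, rfl⟩ := h2
      rw [pow_mul]
      exact sub_one_dvd_pow_sub_one _ _
  · by_cases ha : (a : ZMod p) = 0
    · refine ⟨1, ?_⟩
      rw [be, h, ha]
      simp
    · refine ⟨0, ?_⟩
      rw [be, h, C_0, zero_mul, add_zero, ← C_pow, ← C_pow]
      simp only [add_zero, pow_zero, C_1]
      rw [hpow _ ha, C_1]
      simp

lemma bddAbove_period (σ : ℕ) {n : ℕ} (hn : 1 ≤ n) :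
    BddAbove (Set.range fun ab : ZMod n × ZMod n => period σ n ab.1 ab.2) := by
  have : NeZero n := ⟨by omega⟩
  exact (Set.finite_range _).bddAbove

lemma period_le_max (σ : ℕ) {n : ℕ} (hn : 1 ≤ n) (a b : ZMod n) :
    period σ n a b ≤ maxPeriod σ n :=
  le_ciSup (bddAbove_period σ hn) (a, b)

lemma exists_max (σ : ℕ) {n : ℕ} (hn : 1 ≤ n) :
    ∃ a b : ℤ, period σ n (a : ZMod n) (b : ZMod n) = maxPeriod σ n := by
  have h1 := Nat.sSup_mem (Set.range_nonempty fun ab : ZMod n × ZMod n =>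
    period σ n ab.1 ab.2) (bddAbove_period σ hn)
  obtain ⟨⟨a, b⟩, hab⟩ := h1
  obtain ⟨a', rfl⟩ := ZMod.intCast_surjective a
  obtain ⟨b', rfl⟩ := ZMod.intCast_surjective b
  exact ⟨a', b', hab⟩

/-- The period of `a + b x` modulo `p ^ j`. -/
noncomputable def P (σ p j : ℕ) (a b : ℤ) : ℕ :=
  period σ (p ^ j) (a : ZMod (p ^ j)) (b : ZMod (p ^ j))

/-- For odd `p` the maximal period modulo `p` is attained by a rule whose period modulo `p ^ 2` is different. -/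
lemma exists_good {σ p : ℕ} [Fact p.Prime] (hσ : 1 ≤ σ) (hp2 : p ≠ 2) :
    ∃ a b : ℤ, P σ p 1 a b = maxPeriod σ p ∧ ¬ D σ p 2 a b (P σ p 1 a b) := by
  have hp : p.Prime := Fact.out
  have hp1 : 1 ≤ p := hp.one_le
  have hp3 : 3 ≤ p := by have := hp.two_le; omega
  have hPD : ∀ (j : ℕ) (a b : ℤ) (k : ℕ), D σ p j a b k ↔ P σ p j a b ∣ k :=
    fun j a b k => D_iff hσ hp1 a b k
  have hPle : ∀ a b : ℤ, P σ p 1 a b ≤ maxPeriod σ p := by
    intro a b
    have h1 : P σ p 1 a b ≤ maxPeriod σ (p ^ 1) := period_le_max σ (by rw [pow_one]; exact hp1) _ _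
    rwa [pow_one] at h1
  have hPpos : ∀ (j : ℕ) (a b : ℤ), 1 ≤ P σ p j a b := fun j a b =>
    period_pos hσ (Nat.one_le_pow _ _ hp1) _ _
  -- the maximal period is at least two
  have hmax2 : 2 ≤ maxPeriod σ p := by
    have h1 := hPle (-1) 0
    have h2 := hPpos 1 (-1) 0
    have h3 : P σ p 1 (-1) 0 ≠ 1 := by
      intro h4
      have h5 : D σ p 1 (-1) 0 1 := (hPD 1 (-1) 0 1).2 (by rw [h4])
      rw [D_one_iff] at h5
      obtain ⟨l, hl⟩ := h5
      obtain ⟨H, hH⟩ := hl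
      have h6 := congrArg (Polynomial.eval 1) hH
      simp only [be, eval_sub, eval_pow, eval_add, eval_C, eval_mul, eval_X, mul_one, eval_one,
        one_pow, sub_self, zero_mul, Int.cast_zero, add_zero, Int.cast_neg, Int.cast_one] at h6
      have h7 : (-1 : ZMod p) ^ (1 + l) - (-1) ^ l = (-1) ^ l * (-2) := by ring
      rw [h7] at h6
      have h20 : (2 : ZMod p) ≠ 0 := by
        intro h0
        have h1 : ((2 : ℕ) : ZMod p) = 0 := by exact_mod_cast h0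
        rw [ZMod.natCast_eq_zero_iff] at h1
        have := Nat.le_of_dvd (by norm_num) h1
        omega
      rcases mul_eq_zero.1 h6 with h8 | h8
      · exact pow_ne_zero _ (neg_ne_zero.2 one_ne_zero) h8
      · exact h20 (neg_eq_zero.1 h8)
    omega
  have hnotnil : ∀ a b : ℤ, P σ p 1 a b = maxPeriod σ p → ¬ Nil σ p a b := by
    intro a b hab hnil
    have h1 := (hPD 1 a b 1).1 (D_one_of_nil hnil)
    have h2 := Nat.le_of_dvd one_pos h1
    omega
  obtain ⟨a, b, hab⟩ := exists_max σ (n := p) hp1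
  have hab' : P σ p 1 a b = maxPeriod σ p := by
    rw [← hab, P]
    rw [pow_one]
  by_cases hpσ : p ∣ σ
  · -- the case p ∣ σ
    have key : ∀ a b : ℤ, P σ p 1 a b = maxPeriod σ p → (a : ZMod p) ≠ 0 → (b : ZMod p) ≠ 0 →
        ¬ D σ p 2 a b (P σ p 1 a b) := by
      intro a b hab ha hb
      exact not_D_two hσ hpσ ha hb (hnotnil a b hab) (hPpos 1 a b)
        (fun k' hk' => (hPD 1 a b k').1 hk') ((hPD 1 a b _).2 dvd_rfl)
    by_cases h0 : (a : ZMod p) = 0 ∨ (b : ZMod p) = 0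
    · -- replace by c (1 + x)
      have h20 : (2 : ZMod p) ≠ 0 := by
        intro h0
        have h1 : ((2 : ℕ) : ZMod p) = 0 := by exact_mod_cast h0
        rw [ZMod.natCast_eq_zero_iff] at h1
        have := Nat.le_of_dvd (by norm_num) h1
        omega
      obtain ⟨g, hg⟩ := IsCyclic.exists_generator (α := (ZMod p)ˣ)
      have hgord : orderOf (g : ZMod p) = p - 1 := by
        rw [orderOf_units, orderOf_eq_card_of_forall_mem_zpowers hg, Nat.card_eq_fintype_card,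
          ZMod.card_units_eq_totient, Nat.totient_prime hp]
      obtain ⟨c, hc⟩ := ZMod.intCast_surjective ((2 : ZMod p)⁻¹ * (g : ZMod p))
      have hc2 : 2 * (c : ZMod p) = g := by
        rw [hc, ← mul_assoc, mul_inv_cancel₀ h20, one_mul]
      have hc0 : (c : ZMod p) ≠ 0 := by
        intro h0
        rw [h0, mul_zero] at hc2
        exact g.ne_zero hc2.symm
      have hstar := star_period hσ hp2 (by rw [hc2]; exact hgord)
        ((hPD 1 c c (P σ p 1 c c)).2 dvd_rfl)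
      have h1 := trivial_period (σ := σ) h0 (hPpos 1 c c) hstar.1 hstar.2
      have h2 : P σ p 1 a b ≤ P σ p 1 c c :=
        Nat.le_of_dvd (hPpos 1 c c) ((hPD 1 a b _).1 h1)
      have h3 : P σ p 1 c c = maxPeriod σ p := le_antisymm (hPle c c) (by rw [← hab']; exact h2)
      exact ⟨c, c, h3, key c c h3 hc0 hc0⟩
    · push Not at h0
      exact ⟨a, b, hab', key a b hab' h0.1 h0.2⟩
  · -- the case p ∤ σ
    have hpk : ¬ p ∣ P σ p 1 a b := by
      rintro ⟨m, hm⟩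
      have h1 : D σ p 1 a b (p * m) := (hPD 1 a b _).2 (by rw [hm])
      have h2 := (hPD 1 a b m).1 (D_one_div hpσ h1)
      have hm0 : 0 < m := by
        rcases Nat.eq_zero_or_pos m with h | h
        · have := hPpos 1 a b
          rw [hm, h] at this
          omega
        · exact h
      have h3 := Nat.le_of_dvd hm0 h2
      rw [hm] at h3
      nlinarith
    have hsame : P σ p 1 (a + p) b = P σ p 1 a b := by
      have h0 : ((p : ℕ) : ZMod (p ^ 1)) = 0 := by rw [ZMod.natCast_eq_zero_iff, pow_one]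
      rw [P, P]
      congr 1
      push_cast
      rw [h0, add_zero]
    by_cases h1 : D σ p 2 a b (P σ p 1 a b)
    · refine ⟨a + p, b, by rw [hsame, hab'], ?_⟩
      intro h2
      rw [hsame] at h2
      exact hnotnil a b hab' (nil_of_D_two hσ hp hpk h1 h2)
    · exact ⟨a, b, hab', h1⟩

/-- For an odd prime `p` the maximal period modulo `p ^ (j + 2)` is `p` times the maximal period modulo
`p ^ (j + 1)`. -/
theorem maxPeriod_eq {σ p : ℕ} (hp : p.Prime) (hσ : 1 ≤ σ) (hp2 : p ≠ 2) (j : ℕ) :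
    maxPeriod σ (p ^ (j + 2)) = p * maxPeriod σ (p ^ (j + 1)) := by
  have : Fact p.Prime := ⟨hp⟩
  have hp1 : 1 ≤ p := hp.one_le
  have hPD : ∀ (j : ℕ) (a b : ℤ) (k : ℕ), D σ p j a b k ↔ P σ p j a b ∣ k :=
    fun j a b k => D_iff hσ hp1 a b k
  have hPpos : ∀ (j : ℕ) (a b : ℤ), 1 ≤ P σ p j a b := fun j a b =>
    period_pos hσ (Nat.one_le_pow _ _ hp1) _ _
  -- upper bound
  have hupper : ∀ i : ℕ, maxPeriod σ (p ^ (i + 2)) ≤ p * maxPeriod σ (p ^ (i + 1)) := by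
    intro i
    obtain ⟨a, b, hab⟩ := exists_max σ (n := p ^ (i + 2)) (Nat.one_le_pow _ _ hp1)
    have h1 : D σ p (i + 1) a b (P σ p (i + 1) a b) := (hPD _ a b _).2 dvd_rfl
    have h2 := (hPD (i + 2) a b _).1 (D_succ (by omega) h1)
    have h3 := Nat.le_of_dvd (Nat.mul_pos hp1 (hPpos _ a b)) h2
    rw [← hab]
    refine h3.trans (Nat.mul_le_mul_left _ ?_)
    exact period_le_max σ (Nat.one_le_pow _ _ hp1) _ _
  have hupper2 : ∀ i : ℕ, maxPeriod σ (p ^ (i + 1)) ≤ p ^ i * maxPeriod σ p := by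
    intro i
    induction i with
    | zero => simp
    | succ i ih =>
      calc maxPeriod σ (p ^ (i + 1 + 1)) ≤ p * maxPeriod σ (p ^ (i + 1)) := hupper i
        _ ≤ p * (p ^ i * maxPeriod σ p) := Nat.mul_le_mul_left _ ih
        _ = _ := by ring
  -- lower bound
  obtain ⟨a, b, hmax, hgood⟩ := exists_good hσ hp2
  have hP1 : P σ p 1 a b ∣ P σ p 2 a b := by
    rw [← hPD 1]
    obtain ⟨l, hl⟩ := (hPD 2 a b _).2 (dvd_refl (P σ p 2 a b))
    exact ⟨l, (pow_dvd_pow _ (by norm_num)).trans hl⟩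
  have hstep : ∀ i : ℕ, P σ p (i + 2) a b = p * P σ p (i + 1) a b := by
    intro i
    have hdiv : ∀ i : ℕ, P σ p (i + 2) a b ∣ p * P σ p (i + 1) a b := by
      intro i
      exact (hPD (i + 2) a b _).1 (D_succ (by omega) ((hPD (i + 1) a b _).2 dvd_rfl))
    have hdiv2 : ∀ i : ℕ, P σ p (i + 1) a b ∣ P σ p (i + 2) a b := by
      intro i
      rw [← hPD (i + 1)]
      obtain ⟨l, hl⟩ := (hPD (i + 2) a b _).2 (dvd_refl (P σ p (i + 2) a b))
      exact ⟨l, (pow_dvd_pow _ (by omega)).trans hl⟩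
    have hdich : ∀ i : ℕ, P σ p (i + 2) a b = P σ p (i + 1) a b ∨
        P σ p (i + 2) a b = p * P σ p (i + 1) a b := by
      intro i
      obtain ⟨m, hm⟩ := hdiv2 i
      have h1 := hdiv i
      rw [hm, mul_comm p] at h1
      have h2 : m ∣ p := Nat.dvd_of_mul_dvd_mul_left (hPpos _ a b) h1
      rcases (Nat.dvd_prime hp).1 h2 with h3 | h3
      · left; rw [hm, h3, mul_one]
      · right; rw [hm, h3, mul_comm]
    induction i with
    | zero =>
      rcases hdich 0 with h1 | h1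
      · exfalso
        apply hgood
        rw [hPD 2]
        simp only [zero_add] at h1
        rw [h1]
      · exact h1
    | succ i ih =>
      rcases hdich (i + 1) with h1 | h1
      · exfalso
        have h2 : D σ p (i + 1 + 2) a b (p * P σ p (i + 1) a b) := by
          rw [hPD (i + 1 + 2), h1]
          show P σ p (i + 2) a b ∣ _
          rw [ih]
        have h3 := D_back hσ hp hp2 (by omega) ((hPD (i + 1) a b _).2 dvd_rfl) h2
        have h4 := (hPD (i + 1 + 1) a b _).1 h3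
        have h5 : P σ p (i + 1 + 1) a b = p * P σ p (i + 1) a b := ih
        rw [h5] at h4
        have h6 := Nat.le_of_dvd (hPpos _ a b) h4
        have h7 := hPpos (i + 1) a b
        have h8 := hp.two_le
        nlinarith
      · exact h1
  have hlower : ∀ i : ℕ, P σ p (i + 1) a b = p ^ i * maxPeriod σ p := by
    intro i
    induction i with
    | zero => simpa using hmax
    | succ i ih =>
      have h1 := hstep i
      rw [ih] at h1
      rw [show i + 1 + 1 = i + 2 by ring, h1]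
      ring
  apply le_antisymm (hupper j)
  calc p * maxPeriod σ (p ^ (j + 1)) ≤ p * (p ^ j * maxPeriod σ p) :=
        Nat.mul_le_mul_left _ (hupper2 j)
    _ = p ^ (j + 1) * maxPeriod σ p := by ring
    _ = P σ p (j + 2) a b := (hlower (j + 1)).symm
    _ ≤ maxPeriod σ (p ^ (j + 2)) := period_le_max σ (Nat.one_le_pow _ _ hp1) _ _

/-- If `π_σ(p^m) < p π_σ(p^(m-1))` for a prime `p`, some `σ ≥ 1` and some `m ≥ 2`, then `p = 2`. -/
theorem result (p σ m : ℕ) (hp : p.Prime) (hσ : 1 ≤ σ) (hm : 2 ≤ m)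
    (h : maxPeriod σ (p ^ m) < p * maxPeriod σ (p ^ (m - 1))) : p = 2 := by
  by_contra hp2
  obtain ⟨j, rfl⟩ : ∃ j, m = j + 2 := ⟨m - 2, by omega⟩
  rw [maxPeriod_eq hp hσ hp2 j] at h
  exact lt_irrefl _ h

end Pool.Agent.Results.MP_25c86d_nt.OddPrimes
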